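import Mathlib

/-!
# MP_a320f3_co: the vertex-edge inequality when the top-dimensional faces can be collapsed away.
-/

namespace Pool.Agent.Results.MP_a320f3_co.CollapsibleTop

open Finset
open scoped Classical

variable {V : Type} [Fintype V]

/-- The `n`-dimensional faces of the flag complex of `G` (the cliques with `n+1` vertices) can be
removed one after the other by elementary collapses: there is a ranking `ρ` of the faces (removal
in increasing order of `ρ`) such that every clique `σ` with `n+1` vertices has a subset `τ` with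
`n` vertices for which all the other `(n+1)`-cliques containing `τ` are removed before `σ`. -/
def TopCollapsible (G : SimpleGraph V) (n : ℕ) : Prop :=
  ∃ ρ : Finset V → ℕ, ∀ σ : Finset V, G.IsNClique (n + 1) σ →
    ∃ τ : Finset V, τ ⊆ σ ∧ τ.card = n ∧
      ∀ σ' : Finset V, G.IsNClique (n + 1) σ' → τ ⊆ σ' → σ' ≠ σ → ρ σ' < ρ σ

/-- number of adjacent ordered pairs in `A × B` -/
noncomputable def a (G : SimpleGraph V) (A B : Finset V) : ℤ :=
  ∑ x ∈ A, ∑ y ∈ B, if G.Adj x y then 1 else 0

theorem a_comm (G : SimpleGraph V) (A B : Finset V) : a G A B = a G B A := by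
  unfold a
  rw [Finset.sum_comm]
  refine Finset.sum_congr rfl fun x _ => Finset.sum_congr rfl fun y _ => ?_
  simp [G.adj_comm]

theorem a_split (G : SimpleGraph V) {K S : Finset V} (h : K ⊆ S) :
    a G S S = a G K K + 2 * a G (S \ K) K + a G (S \ K) (S \ K) := by
  have e1 : ∀ B : Finset V, a G S B = a G (S \ K) B + a G K B := by
    intro B
    unfold a
    exact (Finset.sum_sdiff h).symm
  have e2 : ∀ A : Finset V, a G A S = a G A (S \ K) + a G A K := by
    intro A
    rw [a_comm G A S, e1 A, a_comm G (S \ K) A, a_comm G K A]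
  rw [e1 S, e2 (S \ K), e2 K, a_comm G K (S \ K)]
  ring

theorem a_self (G : SimpleGraph V) (K : Finset V) : a G K K ≤ (K.card : ℤ) * (K.card - 1) := by
  unfold a
  have h : ∀ x ∈ K, (∑ y ∈ K, if G.Adj x y then (1 : ℤ) else 0) ≤ (K.card : ℤ) - 1 := by
    intro x hx
    rw [← Finset.add_sum_erase K _ hx]
    simp only [SimpleGraph.irrefl, if_false, zero_add]
    calc (∑ y ∈ K.erase x, if G.Adj x y then (1 : ℤ) else 0) ≤ ∑ y ∈ K.erase x, (1 : ℤ) := by
          apply Finset.sum_le_sum
          intro y _
          split_ifs <;> norm_num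
      _ = (K.card : ℤ) - 1 := by
          rw [Finset.sum_const, Finset.card_erase_of_mem hx]
          have : 1 ≤ K.card := Finset.card_pos.2 ⟨x, hx⟩
          simp only [nsmul_eq_mul, mul_one]
          push_cast [Nat.cast_sub this]
          ring
  calc (∑ x ∈ K, ∑ y ∈ K, if G.Adj x y then (1 : ℤ) else 0) ≤ ∑ x ∈ K, ((K.card : ℤ) - 1) :=
        Finset.sum_le_sum h
    _ = (K.card : ℤ) * (K.card - 1) := by
        rw [Finset.sum_const, nsmul_eq_mul]

theorem a_cross (G : SimpleGraph V) (R K : Finset V) :
    a G R K ≤ ((K.card : ℤ) - 1) * R.card +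
      (R.filter (fun u => ∀ y ∈ K, G.Adj u y)).card := by
  unfold a
  have h : ∀ u ∈ R, (∑ y ∈ K, if G.Adj u y then (1 : ℤ) else 0) ≤
      ((K.card : ℤ) - 1) + (if (∀ y ∈ K, G.Adj u y) then 1 else 0) := by
    intro u _
    by_cases hu : ∀ y ∈ K, G.Adj u y
    · rw [if_pos hu]
      calc (∑ y ∈ K, if G.Adj u y then (1 : ℤ) else 0) ≤ ∑ y ∈ K, (1 : ℤ) := by
            apply Finset.sum_le_sum
            intro y _
            split_ifs <;> norm_num
        _ = (K.card : ℤ) - 1 + 1 := by
            rw [Finset.sum_const, nsmul_eq_mul]; ring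
    · rw [if_neg hu]
      push Not at hu
      obtain ⟨y, hy, hny⟩ := hu
      rw [← Finset.add_sum_erase K _ hy, if_neg hny, zero_add, add_zero]
      calc (∑ z ∈ K.erase y, if G.Adj u z then (1 : ℤ) else 0) ≤ ∑ z ∈ K.erase y, (1 : ℤ) := by
            apply Finset.sum_le_sum
            intro z _
            split_ifs <;> norm_num
        _ = (K.card : ℤ) - 1 := by
            rw [Finset.sum_const, Finset.card_erase_of_mem hy]
            have : 1 ≤ K.card := Finset.card_pos.2 ⟨y, hy⟩
            simp only [nsmul_eq_mul, mul_one]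
            push_cast [Nat.cast_sub this]
            ring
  calc (∑ u ∈ R, ∑ y ∈ K, if G.Adj u y then (1 : ℤ) else 0)
      ≤ ∑ u ∈ R, (((K.card : ℤ) - 1) + (if (∀ y ∈ K, G.Adj u y) then 1 else 0)) :=
        Finset.sum_le_sum h
    _ = ((K.card : ℤ) - 1) * R.card + (R.filter (fun u => ∀ y ∈ K, G.Adj u y)).card := by
        rw [Finset.sum_add_distrib, Finset.sum_const, nsmul_eq_mul, Finset.sum_ite]
        simp
        ring

/-- the arithmetic of the induction step -/
theorem arith {n M k δ A A' B C : ℤ} (hn : 1 ≤ n) (hk1 : 1 ≤ k) (hkn : k ≤ n) (hM : n + 2 ≤ M)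
    (hδ : δ ≤ 0 ∨ (δ ≤ 1 ∧ k = n))
    (hA : A = B + 2 * C + A') (hB : B ≤ k * (k - 1)) (hC : C ≤ (k - 1) * (M - k) + δ)
    (ih : (M - k - 1) ^ 2 ≤ n * ((M - k) ^ 2 - A' - 1)) :
    (M - 1) ^ 2 ≤ n * (M ^ 2 - A - 1) := by
  have h1 : A ≤ k * (k - 1) + 2 * ((k - 1) * (M - k) + δ) + A' := by linarith
  have h2 : n * (M ^ 2 - (k * (k - 1) + 2 * ((k - 1) * (M - k) + δ) + A') - 1)
      ≤ n * (M ^ 2 - A - 1) := by
    apply mul_le_mul_of_nonneg_left _ (by linarith)
    linarith
  refine le_trans ?_ h2
  have h3 : n * (M ^ 2 - (k * (k - 1) + 2 * ((k - 1) * (M - k) + δ) + A') - 1)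
      = n * ((M - k) ^ 2 - A' - 1) + n * (2 * M - k - 2 * δ) := by ring
  rw [h3]
  have h4 : (M - 1) ^ 2 = (M - k - 1) ^ 2 + k * (2 * M - 2 - k) := by ring
  rw [h4]
  have h5 : k * (2 * M - 2 - k) ≤ n * (2 * M - k - 2 * δ) := by
    rcases hδ with h | ⟨h, rfl⟩
    · have : k * (2 * M - 2 - k) ≤ n * (2 * M - 2 - k) :=
        mul_le_mul_of_nonneg_right hkn (by linarith)
      have h6 : n * (2 * M - 2 - k) ≤ n * (2 * M - k - 2 * δ) :=
        mul_le_mul_of_nonneg_left (by linarith) (by linarith)
      linarith
    · exact mul_le_mul_of_nonneg_left (by linarith) (by linarith)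
  linarith

theorem main (G : SimpleGraph V) (n : ℕ) (hn : 1 ≤ n) (hcol : TopCollapsible G n) :
    ∀ (m : ℕ) (S : Finset V), S.card = m → 1 ≤ m →
      ((m : ℤ) - 1) ^ 2 ≤ n * ((m : ℤ) ^ 2 - a G S S - 1) := by
  obtain ⟨ρ, hρ⟩ := hcol
  intro m
  induction m using Nat.strong_induction_on with
  | _ m ih =>
    intro S hS hm
    have hnz : (1 : ℤ) ≤ n := by exact_mod_cast hn
    by_cases hsmall : m ≤ n + 1
    · have h1 := a_self G S
      rw [hS] at h1
      have h2 : (m : ℤ) ≤ n + 1 := by exact_mod_cast hsmall
      have h3 : (1 : ℤ) ≤ m := by exact_mod_cast hm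
      have h4 : (n : ℤ) * ((m : ℤ) - 1) ≤ n * ((m : ℤ) ^ 2 - a G S S - 1) := by
        apply mul_le_mul_of_nonneg_left _ (by linarith)
        nlinarith
      have h5 : ((m : ℤ) - 1) * ((m : ℤ) - 1) ≤ n * ((m : ℤ) - 1) :=
        mul_le_mul_of_nonneg_right (by linarith) (by linarith)
      nlinarith
    · -- choose the clique to remove
      have key : ∃ K : Finset V, K ⊆ S ∧ 1 ≤ K.card ∧ K.card ≤ n ∧
          ((((S \ K).filter (fun u => ∀ y ∈ K, G.Adj u y)).card ≤ 0) ∨
            (((S \ K).filter (fun u => ∀ y ∈ K, G.Adj u y)).card ≤ 1 ∧ K.card = n)) := by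
        by_cases hex : ∃ σ : Finset V, σ ⊆ S ∧ G.IsNClique (n + 1) σ
        · -- a minimal `(n+1)`-clique
          let F : Finset (Finset V) := S.powerset.filter (fun σ => G.IsNClique (n + 1) σ)
          have hF : F.Nonempty := by
            obtain ⟨σ, h1, h2⟩ := hex
            exact ⟨σ, by simp [F, h1, h2]⟩
          obtain ⟨σ, hσF, hmin⟩ := Finset.exists_min_image F ρ hF
          have hσ : σ ⊆ S ∧ G.IsNClique (n + 1) σ := by simpa [F] using hσF
          obtain ⟨τ, hτσ, hτn, hτ⟩ := hρ σ hσ.2
          refine ⟨τ, hτσ.trans hσ.1, by omega, by omega, Or.inr ⟨?_, hτn⟩⟩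
          rw [Finset.card_le_one]
          have huniq : ∀ u ∈ (S \ τ).filter (fun u => ∀ y ∈ τ, G.Adj u y), insert u τ = σ := by
            intro u hu
            rw [mem_filter, mem_sdiff] at hu
            by_contra hne
            have hc : G.IsNClique (n + 1) (insert u τ) := by
              rw [SimpleGraph.isNClique_iff]
              refine ⟨?_, by rw [card_insert_of_notMem hu.1.2, hτn]⟩
              rw [coe_insert, SimpleGraph.isClique_insert]
              exact ⟨hσ.2.1.subset (by exact_mod_cast hτσ), fun b hb _ => hu.2 b hb⟩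
            have h1 := hτ _ hc (subset_insert _ _) hne
            have h2 := hmin (insert u τ) (by
              simp only [F, mem_filter, mem_powerset]
              exact ⟨insert_subset hu.1.1 (hτσ.trans hσ.1), hc⟩)
            omega
          intro u hu w hw
          have h1 := huniq u hu
          have h2 := huniq w hw
          have hwu : w ∈ insert u τ := by rw [h1, ← h2]; exact mem_insert_self _ _
          rw [mem_insert] at hwu
          rcases hwu with h | h
          · exact h.symm
          · rw [mem_filter, mem_sdiff] at hw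
            exact absurd h hw.1.2
        · -- a maximum clique
          let F : Finset (Finset V) := S.powerset.filter (fun σ => G.IsClique (σ : Set V))
          have hne : S.Nonempty := Finset.card_pos.1 (by omega)
          obtain ⟨v, hv⟩ := hne
          have hF : F.Nonempty := by
            refine ⟨{v}, ?_⟩
            simp [F, hv]
          obtain ⟨K, hKF, hmax⟩ := Finset.exists_max_image F Finset.card hF
          have hK : K ⊆ S ∧ G.IsClique (K : Set V) := by simpa [F] using hKF
          have h1 : 1 ≤ K.card := by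
            have := hmax {v} (by simp [F, hv])
            simpa using this
          refine ⟨K, hK.1, h1, ?_, Or.inl ?_⟩
          · by_contra hcon
            obtain ⟨K', hK', hcard⟩ := Finset.exists_subset_card_eq (show n + 1 ≤ K.card by omega)
            exact hex ⟨K', hK'.trans hK.1, by
              rw [SimpleGraph.isNClique_iff]
              exact ⟨hK.2.subset (by exact_mod_cast hK'), hcard⟩⟩
          · rw [Nat.le_zero, Finset.card_eq_zero, Finset.filter_eq_empty_iff]
            intro u hu hcon
            rw [mem_sdiff] at hu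
            have := hmax (insert u K) (by
              simp only [F, mem_filter, mem_powerset]
              refine ⟨insert_subset hu.1 hK.1, ?_⟩
              rw [coe_insert, SimpleGraph.isClique_insert]
              exact ⟨hK.2, fun b hb _ => hcon b hb⟩)
            rw [card_insert_of_notMem hu.2] at this
            omega
      obtain ⟨K, hKS, hK1, hKn, hδ⟩ := key
      have hR : (S \ K).card = m - K.card := by rw [card_sdiff_of_subset hKS, hS]
      have hih := ih (m - K.card) (by omega) (S \ K) hR (by omega)
      have hcast : ((m - K.card : ℕ) : ℤ) = (m : ℤ) - K.card := by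
        rw [Nat.cast_sub (by omega)]
      rw [hcast] at hih
      have hcross := a_cross G (S \ K) K
      rw [hR, hcast] at hcross
      refine arith (δ := (((S \ K).filter (fun u => ∀ y ∈ K, G.Adj u y)).card : ℤ)) hnz
        (by exact_mod_cast hK1) (by exact_mod_cast hKn) (by push Not at hsmall; exact_mod_cast (by omega : n + 2 ≤ m))
        ?_ (a_split G hKS) (a_self G K) hcross hih
      rcases hδ with h | ⟨h, h'⟩
      · left; exact_mod_cast h
      · right; exact ⟨by exact_mod_cast h, by exact_mod_cast h'⟩

/-- Main result: if the `n`-dimensional faces of the flag complex of `G` (`n ≥ 1`) can be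
collapsed away, then `(v-1)^2 ≤ n (v^2 - 2e - 1)`. -/
theorem result (V : Type) [Fintype V] [Nonempty V] (G : SimpleGraph V) (n : ℕ) (hn : 1 ≤ n)
    (hcol : TopCollapsible G n) :
    ((Fintype.card V : ℤ) - 1) ^ 2 ≤
      n * ((Fintype.card V : ℤ) ^ 2 - 2 * (G.edgeSet.ncard : ℤ) - 1) := by
  have h := main G n hn hcol (Fintype.card V) univ (by simp) Fintype.card_pos
  have he : a G univ univ = 2 * (G.edgeSet.ncard : ℤ) := by
    have h1 := G.sum_degrees_eq_twice_card_edges
    have h2 : G.edgeSet.ncard = G.edgeFinset.card := by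
      rw [← SimpleGraph.coe_edgeFinset, Set.ncard_coe_finset]
    rw [h2]
    have h3 : a G univ univ = ((∑ v, G.degree v : ℕ) : ℤ) := by
      unfold a
      push_cast
      refine Finset.sum_congr rfl fun x _ => ?_
      rw [← SimpleGraph.card_neighborFinset_eq_degree, SimpleGraph.neighborFinset_eq_filter,
        Finset.card_filter]
      push_cast
      rfl
    rw [h3, h1]
    push_cast
    ring
  rw [he] at h
  exact h

end Pool.Agent.Results.MP_a320f3_co.CollapsibleTop
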